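import Mathlib

set_option autoImplicit false

namespace Pool.Agent.H287Z.Cp

open Cardinal Set

/-- sets of size at most `ℵ₁` -/
def Small {D : Type} (S : Set D) : Prop := #S ≤ ℵ₁

theorem Small.mono {D : Type} {S T : Set D} (hT : Small T) (h : S ⊆ T) : Small S :=
  (mk_le_mk_of_subset h).trans hT

theorem small_of_countable {D : Type} {S : Set D} (h : S.Countable) : Small S :=
  (le_aleph0_iff_set_countable.2 h).trans (aleph0_le_aleph 1)

theorem Small.union {D : Type} {S T : Set D} (hS : Small S) (hT : Small T) : Small (S ∪ T) := by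
  refine (mk_union_le S T).trans ?_
  exact (add_le_add hS hT).trans (by rw [add_eq_self (aleph0_le_aleph 1)])

theorem small_biUnion {D ι : Type} {s : Set ι} (hs : s.Countable) {A : ι → Set D}
    (hA : ∀ i ∈ s, Small (A i)) : Small (⋃ i ∈ s, A i) := by
  refine (mk_biUnion_le A s).trans ?_
  have h1 : #s ≤ ℵ₁ := (le_aleph0_iff_set_countable.2 hs).trans (aleph0_le_aleph 1)
  have h2 : (⨆ i : s, #(A i.1)) ≤ ℵ₁ := ciSup_le' fun i => hA i.1 i.2
  exact (mul_le_mul' h1 h2).trans (by rw [mul_eq_self (aleph0_le_aleph 1)])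

theorem exists_notMem_of_not_small {D : Type} {G S : Set D} (hG : ¬ Small G) (hS : Small S) :
    ∃ a ∈ G, a ∉ S := by
  by_contra h
  push Not at h
  exact hG (hS.mono h)

open Classical in
theorem exists_core {D : Type} (hD : ℵ₁ < #D) (Q : D → Finset (Ultrafilter D)) :
    ∃ C0 : Set D, C0.Countable ∧ ∀ C : Set D, C.Countable → Disjoint C C0 →
      ¬ Small {a | ∀ q ∈ Q a, C ∉ q} := by
  obtain ⟨k, hk⟩ : ∃ k : ℕ, ¬ Small {a | (Q a).card ≤ k} := by
    by_contra h
    push Not at h
    have h1 : Small (⋃ k ∈ (univ : Set ℕ), {a | (Q a).card ≤ k}) :=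
      small_biUnion countable_univ fun k _ => h k
    have h2 : Small (univ : Set D) := h1.mono fun a _ => by
      simp only [mem_univ, iUnion_true, mem_iUnion, mem_setOf_eq]
      exact ⟨_, le_rfl⟩
    unfold Small at h2
    rw [mk_univ] at h2
    exact absurd hD (not_lt.2 h2)
  by_contra h
  push Not at h
  have key : ∀ j : ℕ, ∃ C0 : Set D, C0.Countable ∧
      Small {a | ((Q a).filter (fun q => C0 ∈ q)).card < j} := by
    intro j
    induction j with
    | zero => exact ⟨∅, countable_empty, small_of_countable (by simp)⟩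
    | succ j ih =>
      obtain ⟨C0, hC0, hs⟩ := ih
      obtain ⟨C, hC, hdis, hsm⟩ := h C0 hC0
      refine ⟨C0 ∪ C, hC0.union hC, (hs.union hsm).mono ?_⟩
      intro a ha
      by_contra hna
      simp only [mem_union, mem_setOf_eq, not_or, not_lt, not_forall, not_not] at hna ha
      obtain ⟨h1, q, hq, hCq⟩ := hna
      have hq0 : q ∉ (Q a).filter (fun q => C0 ∈ q) := by
        simp only [Finset.mem_filter, not_and]
        intro _ h0
        have : C ∩ C0 ∈ q := Filter.inter_mem hCq h0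
        rw [hdis.inter_eq] at this
        exact q.empty_notMem this
      have hsub : insert q ((Q a).filter (fun q => C0 ∈ q)) ⊆
          (Q a).filter (fun q => C0 ∪ C ∈ q) := by
        intro r hr
        rw [Finset.mem_insert] at hr
        rw [Finset.mem_filter]
        rcases hr with rfl | hr
        · exact ⟨hq, Filter.mem_of_superset hCq subset_union_right⟩
        · rw [Finset.mem_filter] at hr
          exact ⟨hr.1, Filter.mem_of_superset hr.2 subset_union_left⟩
      have := Finset.card_le_card hsub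
      rw [Finset.card_insert_of_notMem hq0] at this
      omega
  obtain ⟨C0, -, hs⟩ := key (k + 1)
  refine hk (hs.mono ?_)
  intro a ha
  simp only [mem_setOf_eq] at ha ⊢
  have := Finset.card_filter_le (Q a) (fun q => C0 ∈ q)
  omega

/-- Free set lemma for finite sets of ultrafilters. -/
theorem exists_free {D : Type} (hD : ℵ₁ < #D) (Q : D → Finset (Ultrafilter D))
    (hQ : ∀ a, (pure a : Ultrafilter D) ∉ Q a) :
    ∃ A : Set D, ¬ A.Countable ∧ ∀ a ∈ A, ∀ q ∈ Q a, A ∉ q := by
  classical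
  obtain ⟨C0, hC0, hcore⟩ := exists_core hD Q
  have hS : ∀ q : Ultrafilter D, ∃ S : Set D, Small S ∧ ((∃ T ∈ q, Small T) → S ∈ q) := by
    intro q
    by_cases h : ∃ T ∈ q, Small T
    · obtain ⟨T, hT, hs⟩ := h
      exact ⟨T, hs, fun _ => hT⟩
    · exact ⟨∅, small_of_countable countable_empty, fun h' => absurd h' h⟩
  choose Sq hSq1 hSq2 using hS
  set N : D → Set D := fun a => ⋃ q ∈ (Q a : Set (Ultrafilter D)), Sq q with hN
  have hNs : ∀ a, Small (N a) := fun a =>
    small_biUnion (Q a).countable_toSet fun q _ => hSq1 q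
  have hnext : ∀ S : Set D, ∃ a : D, S.Countable →
      (∀ q ∈ Q a, S \ C0 ∉ q) ∧ a ∉ S ∧ a ∉ C0 ∧ ∀ s ∈ S, a ∉ N s := by
    intro S
    by_cases hSc : S.Countable
    · have h1 := hcore (S \ C0) (hSc.mono diff_subset) disjoint_sdiff_left
      have h2 : Small ((S ∪ C0) ∪ ⋃ s ∈ S, N s) :=
        (small_of_countable (hSc.union hC0)).union (small_biUnion hSc fun s _ => hNs s)
      obtain ⟨a, ha, hna⟩ := exists_notMem_of_not_small h1 h2
      simp only [mem_union, mem_iUnion, not_or, not_exists] at hna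
      exact ⟨a, fun _ => ⟨ha, hna.1.1, hna.1.2, fun s hs => hna.2 s hs⟩⟩
    · have : Nonempty D := by
        rw [← mk_ne_zero_iff]
        exact (lt_of_le_of_lt (zero_le) hD).ne'
      exact ⟨Classical.arbitrary D, fun h => absurd h hSc⟩
  choose next hnext using hnext
  let I : Type := (ℵ₁ : Cardinal.{0}).ord.ToType
  let f : I → D := (wellFounded_lt (α := I)).fix
    (fun ξ g => next (range fun η : {η : I // η < ξ} => g η.1 η.2))
  have hf : ∀ ξ, f ξ = next (f '' Iio ξ) := by
    intro ξ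
    have h1 : f ξ = next (range fun η : {η : I // η < ξ} => f η.1) :=
      WellFounded.fix_eq _ _ _
    rw [h1]
    congr 1
    ext x
    simp
  have hc : ∀ ξ : I, (f '' Iio ξ).Countable := by
    intro ξ
    refine Countable.image ?_ f
    rw [← le_aleph0_iff_set_countable, ← lt_aleph_one_iff]
    exact mk_Iio_toType_ord_lt ξ
  have hp : ∀ ξ : I, (∀ q ∈ Q (f ξ), f '' Iio ξ \ C0 ∉ q) ∧ f ξ ∉ f '' Iio ξ ∧ f ξ ∉ C0 ∧
      ∀ s ∈ f '' Iio ξ, f ξ ∉ N s := by
    intro ξ
    have := hnext _ (hc ξ)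
    rw [← hf ξ] at this
    exact this
  have hinj : Function.Injective f := by
    intro ξ η h
    rcases lt_trichotomy ξ η with hl | hl | hl
    · exact absurd ⟨ξ, hl, h⟩ (hp η).2.1
    · exact hl
    · exact absurd ⟨η, hl, h.symm⟩ (hp ξ).2.1
  have hcard : #(range f) = ℵ₁ := by
    rw [mk_range_eq f hinj]
    simp [I]
  refine ⟨range f, ?_, ?_⟩
  · rw [← le_aleph0_iff_set_countable, hcard, not_le]
    exact aleph0_lt_aleph_one
  · rintro _ ⟨ξ, rfl⟩ q hq hA
    have h1 : N (f ξ) ∈ q := by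
      refine Filter.mem_of_superset (hSq2 q ⟨_, hA, hcard.le⟩) ?_
      intro x hx
      simp only [hN, mem_iUnion]
      exact ⟨q, hq, hx⟩
    have h2 : (f '' Iio ξ \ C0)ᶜ ∈ q := Ultrafilter.compl_mem_iff_notMem.2 ((hp ξ).1 q hq)
    have h3 : ({f ξ} : Set D)ᶜ ∈ q := by
      rw [Ultrafilter.compl_mem_iff_notMem]
      intro h
      obtain ⟨x, hx, hqx⟩ := Ultrafilter.eq_pure_of_finite_mem (finite_singleton _) h
      rw [mem_singleton_iff] at hx
      rw [hqx, hx] at hq
      exact hQ _ hq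
    have h4 := Filter.inter_mem (Filter.inter_mem hA h1) (Filter.inter_mem h2 h3)
    obtain ⟨x, ⟨⟨η, rfl⟩, hx1⟩, hx2, hx3⟩ := q.nonempty_of_mem h4
    rcases lt_trichotomy η ξ with hl | hl | hl
    · exact hx2 ⟨⟨η, hl, rfl⟩, (hp η).2.2.1⟩
    · exact hx3 (by rw [hl]; rfl)
    · exact (hp η).2.2.2 _ ⟨ξ, hl, rfl⟩ hx1

end Pool.Agent.H287Z.Cp
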