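import Mathlib
import Pool.Agent.H287Z.Cp.Free

set_option autoImplicit false

namespace Pool.Agent.H287Z.Cp

open Cardinal Set

/-- an open subset of the space of continuous functions with the pointwise topology contains,
with each `z`, every function that agrees with `z` on a suitable finite set -/
theorem exists_finset_of_isOpen {X : Type} [TopologicalSpace X]
    {U : Set {f : X → ℝ // Continuous f}} (hU : IsOpen U) {z : {f : X → ℝ // Continuous f}}
    (hz : z ∈ U) : ∃ F : Finset X, ∀ w : {f : X → ℝ // Continuous f},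
      (∀ x ∈ F, w.1 x = z.1 x) → w ∈ U := by
  obtain ⟨V, hV, rfl⟩ := isOpen_induced_iff.1 hU
  obtain ⟨I, u, h1, h2⟩ := isOpen_pi_iff.1 hV z.1 hz
  refine ⟨I, fun w hw => h2 ?_⟩
  intro x hx
  rw [hw x hx]
  exact (h1 x hx).2

open Classical in
/-- the continuous extension to `βD` of the indicator function of `A ⊆ D` -/
noncomputable def ind {D : Type} (A : Set D) : {f : Ultrafilter D → ℝ // Continuous f} :=
  ⟨fun q => if A ∈ q then 1 else 0, by
    have h : IsClopen {q : Ultrafilter D | A ∈ q} :=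
      ⟨ultrafilter_isClosed_basic A, ultrafilter_isOpen_basic A⟩
    refine continuous_if' ?_ ?_ continuous_const.continuousOn continuous_const.continuousOn
    · intro a ha
      rw [h.frontier_eq] at ha
      exact absurd ha (notMem_empty _)
    · intro a ha
      rw [h.frontier_eq] at ha
      exact absurd ha (notMem_empty _)⟩

theorem ind_of_mem {D : Type} {A : Set D} {q : Ultrafilter D} (h : A ∈ q) : (ind A).1 q = 1 := by
  simp [ind, h]

theorem ind_of_notMem {D : Type} {A : Set D} {q : Ultrafilter D} (h : A ∉ q) :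
    (ind A).1 q = 0 := by
  simp [ind, h]

theorem singleton_notMem {D : Type} {a : D} {q : Ultrafilter D} (h : q ≠ pure a) :
    ({a} : Set D) ∉ q := by
  intro hq
  obtain ⟨x, hx, hqx⟩ := Ultrafilter.eq_pure_of_finite_mem (finite_singleton _) hq
  rw [mem_singleton_iff] at hx
  exact h (hx ▸ hqx)

theorem finite_of_open {D : Type} {U : Set {f : Ultrafilter D → ℝ // Continuous f}}
    (hU : IsOpen U) (h0 : ind (∅ : Set D) ∈ U) : {a : D | ind {a} ∉ U}.Finite := by
  obtain ⟨F, hF⟩ := exists_finset_of_isOpen hU h0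
  refine (F.finite_toSet.preimage (f := fun a : D => (pure a : Ultrafilter D))
    Ultrafilter.pure_injective.injOn).subset ?_
  intro a ha
  by_contra hna
  refine ha (hF _ fun q hq => ?_)
  have h1 : q ≠ pure a := by
    rintro rfl
    exact hna hq
  rw [ind_of_notMem (singleton_notMem h1), ind_of_notMem q.empty_notMem]

theorem countable_of_cozero {D : Type} {g : {f : Ultrafilter D → ℝ // Continuous f} → ℝ}
    (hg : Continuous g) (h0 : g (ind (∅ : Set D)) = 0) : {a : D | g (ind {a}) ≠ 0}.Countable := by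
  have h1 : ∀ m : ℕ, {a : D | ind {a} ∉ {z | |g z| < 1 / ((m : ℝ) + 1)}}.Finite := by
    intro m
    refine finite_of_open (isOpen_lt hg.abs continuous_const) ?_
    show |g (ind ∅)| < _
    rw [h0, abs_zero]
    positivity
  refine (countable_iUnion fun m => (h1 m).countable).mono ?_
  intro a ha
  obtain ⟨m, hm⟩ := exists_nat_one_div_lt (abs_pos.2 ha)
  exact mem_iUnion.2 ⟨m, fun h => absurd h (not_lt.2 hm.le)⟩

theorem not_pointCountable {D : Type} (hD : ℵ₁ < #D)
    (𝒰 : Set (Set {f : Ultrafilter D → ℝ // Continuous f}))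
    (hco : ∀ U ∈ 𝒰, ∃ g : {f : Ultrafilter D → ℝ // Continuous f} → ℝ,
      Continuous g ∧ U = (g ⁻¹' {0})ᶜ)
    (hsep : ∀ z w, z ≠ w → ∃ U ∈ 𝒰, (z ∈ U ∧ w ∉ U) ∨ (w ∈ U ∧ z ∉ U))
    (hpc : ∀ z, {U ∈ 𝒰 | z ∈ U}.Countable) : False := by
  classical
  have hop : ∀ U ∈ 𝒰, IsOpen U := by
    intro U hU
    obtain ⟨g, hg, rfl⟩ := hco U hU
    exact (isClosed_singleton.preimage hg).isOpen_compl
  set C : Set D := ⋃ U ∈ {U ∈ 𝒰 | ind (∅ : Set D) ∈ U}, {a : D | ind {a} ∉ U} with hC
  have hCc : C.Countable :=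
    (hpc _).biUnion fun U hU => (finite_of_open (hop U hU.1) hU.2).countable
  have hU : ∀ a : D, ∃ (U : Set {f : Ultrafilter D → ℝ // Continuous f})
      (Q : Finset (Ultrafilter D)), (pure a : Ultrafilter D) ∉ Q ∧ (a ∉ C →
        U ∈ 𝒰 ∧ ind {a} ∈ U ∧ ind (∅ : Set D) ∉ U ∧
        ∀ A : Set D, a ∈ A → (∀ q ∈ Q, A ∉ q) → ind A ∈ U) := by
    intro a
    by_cases ha : a ∈ C
    · exact ⟨∅, ∅, by simp, fun h => absurd ha h⟩
    have hne : ind ({a} : Set D) ≠ ind ∅ := by
      intro h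
      have h1 : (ind ({a} : Set D)).1 (pure a) = (ind (∅ : Set D)).1 (pure a) := by rw [h]
      rw [ind_of_mem (Ultrafilter.mem_pure.2 (mem_singleton a)),
        ind_of_notMem (Ultrafilter.empty_notMem)] at h1
      exact one_ne_zero h1
    obtain ⟨U, hU, h | h⟩ := hsep _ _ hne
    · obtain ⟨F, hF⟩ := exists_finset_of_isOpen (hop U hU) h.1
      refine ⟨U, F.erase (pure a), by simp, fun _ => ⟨hU, h.1, h.2, ?_⟩⟩
      intro A haA hA
      refine hF _ fun q hq => ?_
      by_cases hqa : q = pure a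
      · rw [hqa, ind_of_mem (Ultrafilter.mem_pure.2 haA),
          ind_of_mem (Ultrafilter.mem_pure.2 (mem_singleton a))]
      · rw [ind_of_notMem (hA q (Finset.mem_erase.2 ⟨hqa, hq⟩)),
          ind_of_notMem (singleton_notMem hqa)]
    · exfalso
      refine ha ?_
      simp only [hC, mem_iUnion]
      exact ⟨U, ⟨hU, h.1⟩, h.2⟩
  choose U Q hQ hUQ using hU
  obtain ⟨A, hA, hfree⟩ := exists_free hD Q hQ
  have hA' : ¬ (A \ C).Countable := fun h =>
    hA ((h.union hCc).mono fun a ha => by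
      by_cases h1 : a ∈ C
      · exact Or.inr h1
      · exact Or.inl ⟨ha, h1⟩)
  refine hA' ?_
  have hcount : (⋃ V ∈ {V ∈ {V ∈ 𝒰 | ind (A \ C) ∈ V} | ind (∅ : Set D) ∉ V},
      {a : D | ind {a} ∈ V}).Countable := by
    refine ((hpc _).mono (sep_subset _ _)).biUnion ?_
    intro V hV
    obtain ⟨g, hg, rfl⟩ := hco V hV.1.1
    have h0 : g (ind ∅) = 0 := by
      have := hV.2
      simpa using this
    exact countable_of_cozero hg h0
  refine hcount.mono ?_
  intro a ha
  obtain ⟨h1, h2, h3, h4⟩ := hUQ a ha.2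
  simp only [mem_iUnion]
  refine ⟨U a, ⟨⟨h1, h4 _ ha ?_⟩, h3⟩, h2⟩
  intro q hq hAq
  exact hfree a ha.1 q hq (Filter.mem_of_superset hAq sdiff_subset)

end Pool.Agent.H287Z.Cp
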